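import Pool.Agent.Helper36.SPR.St
import Pool.Agent.Helper36.SPR.St2

/-!
# Project SPR (MP_343216_nt): module EN (exponential sums for all lengths)
-/

set_option autoImplicit false

namespace Pool.Agent.Helper7.SPR

open Pool.Agent.Helper36.SPR
open Finset

private lemma exp_EN (ε ε1 s : ℝ) (hε : 0 < ε) (h1 : 2 * ε ≤ ε1) (h2 : 2 * ε ≤ 1)
    (hs1 : 1 ≤ s) (hs : (2 : ℝ) ^ (1 / ε) ≤ s) : s ^ (-ε1) + s⁻¹ ≤ s ^ (-ε) := by
  have hs0 : 0 < s := by linarith only [hs1]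
  have hA : s ^ (-ε1) ≤ s ^ (-(2 * ε)) :=
    Real.rpow_le_rpow_of_exponent_le hs1 (by linarith only [h1])
  have hB : s⁻¹ ≤ s ^ (-(2 * ε)) := by
    rw [← Real.rpow_neg_one]
    exact Real.rpow_le_rpow_of_exponent_le hs1 (by linarith only [h2])
  have hC : s ^ (-(2 * ε)) = s ^ (-ε) * s ^ (-ε) := by
    rw [← Real.rpow_add hs0]; congr 1; ring
  have hD : (2 : ℝ) ≤ s ^ ε := by
    calc (2 : ℝ) = ((2 : ℝ) ^ (1 / ε)) ^ ε := by
          rw [← Real.rpow_mul (by norm_num)]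
          rw [one_div, inv_mul_cancel₀ hε.ne', Real.rpow_one]
      _ ≤ s ^ ε := Real.rpow_le_rpow (by positivity) hs hε.le
  have hE : s ^ (-ε) ≤ 1 / 2 := by
    rw [Real.rpow_neg hs0.le, ← one_div]
    exact one_div_le_one_div_of_le (by norm_num) hD
  have hF : 0 < s ^ (-ε) := Real.rpow_pos_of_pos hs0 _
  have hG : s ^ (-ε) * s ^ (-ε) ≤ s ^ (-ε) * (1 / 2) := mul_le_mul_of_nonneg_left hE hF.le
  rw [hC] at hA hB
  linarith only [hA, hB, hG]

theorem hEN (hMN : StMN) (hEP : StEP) (hEQ : StEQ) : StEN := by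
  obtain ⟨ε1, hε1, p1, H1⟩ := hEP
  obtain ⟨ε2, hε2, p2, H2⟩ := hEQ
  obtain ⟨ε, hε⟩ : ∃ ε, ε = min (min ε1 ε2) 1 / 2 := ⟨_, rfl⟩
  have hε0 : 0 < ε := by rw [hε]; positivity
  have h21 : 2 * ε ≤ ε1 := by
    have := (min_le_left (min ε1 ε2) 1).trans (min_le_left ε1 ε2)
    rw [hε]; linarith only [this]
  have h22 : 2 * ε ≤ ε2 := by
    have := (min_le_left (min ε1 ε2) 1).trans (min_le_right ε1 ε2)
    rw [hε]; linarith only [this]
  have h23 : 2 * ε ≤ 1 := by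
    have := min_le_right (min ε1 ε2) 1
    rw [hε]; linarith only [this]
  refine ⟨ε, hε0, max (max p1 p2) (max 3 ⌈(2 : ℝ) ^ (1 / ε)⌉₊), ?_, ?_⟩
  · intro p N _ hp0 hp hN hord a ha
    have hp1 : p1 ≤ p := ((le_max_left _ _).trans (le_max_left _ _)).trans hp0
    have hp3 : 3 ≤ p := ((le_max_left _ _).trans (le_max_right _ _)).trans hp0
    have hpc : ⌈(2 : ℝ) ^ (1 / ε)⌉₊ ≤ p := ((le_max_right _ _).trans (le_max_right _ _)).trans hp0
    have hpc' : (2 : ℝ) ^ (1 / ε) ≤ (p : ℝ) := (Nat.le_ceil _).trans (by exact_mod_cast hpc)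
    have hpr : (0 : ℝ) < p := by exact_mod_cast hp.pos
    have hpr1 : (1 : ℝ) ≤ p := by exact_mod_cast hp.one_lt.le
    have : Fact p.Prime := ⟨hp⟩
    have hT : 0 < p - 1 := by omega
    have hN0 : 0 < N := lt_of_lt_of_le (by positivity) hN
    have hcop : Nat.Coprime 2 p := (Nat.coprime_primes Nat.prime_two hp).2 (by omega)
    have h2T : (2 : ZMod p) ^ (p - 1) = 1 := by
      apply ZMod.pow_card_sub_one_eq_one
      intro h0
      have h00 : ((2 : ℕ) : ZMod p) = 0 := by exact_mod_cast h0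
      rw [ZMod.natCast_eq_zero_iff] at h00
      have := Nat.le_of_dvd (by norm_num) h00
      omega
    have hM := hMN p (p - 1) N hT hN0 h2T a
    have hE := H1 p (p - 1) hp1 hp hT h2T hord a ha
    have hfrac : ((p - 1 : ℕ) : ℝ) / N ≤ (p : ℝ)⁻¹ := by
      have hNr : (p : ℝ) ^ 2 ≤ N := by exact_mod_cast hN
      have hNr0 : (0 : ℝ) < N := by exact_mod_cast hN0
      rw [div_le_iff₀ hNr0, inv_mul_eq_div, le_div_iff₀ hpr]
      have hle : ((p - 1 : ℕ) : ℝ) ≤ p := by exact_mod_cast Nat.sub_le p 1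
      calc ((p - 1 : ℕ) : ℝ) * p ≤ p * p := mul_le_mul_of_nonneg_right hle hpr.le
        _ = (p : ℝ) ^ 2 := by ring
        _ ≤ N := hNr
    calc ‖mu p N a‖ ≤ ‖mu p (p - 1) a‖ + ((p - 1 : ℕ) : ℝ) / N := hM
      _ ≤ (p : ℝ) ^ (-ε1) + (p : ℝ)⁻¹ := add_le_add hE hfrac
      _ ≤ (p : ℝ) ^ (-ε) := exp_EN ε ε1 p hε0 h21 h23 hpr1 hpc'
  · intro p q N _ _ hp0 hp hq hpq hN hordp hordq a ha
    have hp2 : p2 ≤ p := ((le_max_right _ _).trans (le_max_left _ _)).trans hp0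
    have hp3 : 3 ≤ p := ((le_max_left _ _).trans (le_max_right _ _)).trans hp0
    have hpc : ⌈(2 : ℝ) ^ (1 / ε)⌉₊ ≤ p := ((le_max_right _ _).trans (le_max_right _ _)).trans hp0
    have hqc' : (2 : ℝ) ^ (1 / ε) ≤ (q : ℝ) :=
      (Nat.le_ceil _).trans (by exact_mod_cast (hpc.trans hpq.le))
    have hqr : (0 : ℝ) < q := by exact_mod_cast hq.pos
    have hqr1 : (1 : ℝ) ≤ q := by exact_mod_cast hq.one_lt.le
    have hN0 : 0 < N := lt_of_lt_of_le (pow_pos hq.pos 4) hN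
    have hcop : Nat.Coprime 2 (p * q) := by
      apply Nat.Coprime.mul_right
      · exact (Nat.coprime_primes Nat.prime_two hp).2 (by omega)
      · exact (Nat.coprime_primes Nat.prime_two hq).2 (by omega)
    obtain ⟨T, hTdef⟩ : ∃ T, T = Nat.totient (p * q) := ⟨_, rfl⟩
    have hT : 0 < T := by
      rw [hTdef]; exact Nat.totient_pos.mpr (Nat.mul_pos hp.pos hq.pos)
    have h2T : (2 : ZMod (p * q)) ^ T = 1 := by
      have h := Nat.ModEq.pow_totient hcop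
      rw [← hTdef] at h
      have h' := (ZMod.natCast_eq_natCast_iff _ _ _).2 h
      push_cast at h'
      exact h'
    have hM := hMN (p * q) T N hT hN0 h2T a
    have hE := H2 p q T hp2 hp hq hpq hT h2T hordp hordq a ha
    have hTle : T ≤ q ^ 2 := by
      rw [hTdef]
      calc Nat.totient (p * q) ≤ p * q := Nat.totient_le _
        _ ≤ q * q := Nat.mul_le_mul_right q hpq.le
        _ = q ^ 2 := by ring
    have hfrac : (T : ℝ) / N ≤ (q : ℝ)⁻¹ := by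
      have hNr : (q : ℝ) ^ 4 ≤ N := by exact_mod_cast hN
      have hNr0 : (0 : ℝ) < N := by exact_mod_cast hN0
      have hTr : (T : ℝ) ≤ (q : ℝ) ^ 2 := by exact_mod_cast hTle
      rw [div_le_iff₀ hNr0, inv_mul_eq_div, le_div_iff₀ hqr]
      calc (T : ℝ) * q ≤ (q : ℝ) ^ 2 * q := mul_le_mul_of_nonneg_right hTr hqr.le
        _ = (q : ℝ) ^ 3 := by ring
        _ ≤ (q : ℝ) ^ 4 := pow_le_pow_right₀ hqr1 (by norm_num)
        _ ≤ N := hNr
    calc ‖mu (p * q) N a‖ ≤ ‖mu (p * q) T a‖ + (T : ℝ) / N := hM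
      _ ≤ (q : ℝ) ^ (-ε2) + (q : ℝ)⁻¹ := add_le_add hE hfrac
      _ ≤ (q : ℝ) ^ (-ε) := exp_EN ε ε2 q hε0 h22 h23 hqr1 hqc'

end Pool.Agent.Helper7.SPR
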