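import Pool.Agent.Helper36.SPR.St4

/-!
Project SPR3 (MP_343216_nt), module PA3: the probability that a prime divides (powers of an
arbitrary element).
-/

set_option autoImplicit false

namespace Pool.Agent.Helper7.SPR

open Pool.Agent.Helper36.SPR

theorem hPA3 (hPF3 : StPF3) (hEP3 : StEP3) : StPA3 := by
  obtain ⟨ε, hε, p₀, hp₀⟩ := hEP3
  refine ⟨⌈2 / ε⌉₊, max p₀ 2, ?_⟩
  intro p T k _ th c hk hp hpp hT h2 hord hc
  have : Fact p.Prime := ⟨hpp⟩
  have hp1 : p₀ ≤ p := (le_max_left _ _).trans hp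
  have hpos : (0 : ℝ) < p := by exact_mod_cast hpp.pos
  have hone : (1 : ℝ) ≤ p := by exact_mod_cast hpp.one_lt.le
  have hk2 : 2 ≤ ε * k := by
    have h1 : 2 / ε ≤ (k : ℝ) := (Nat.le_ceil _).trans (by exact_mod_cast hk)
    rw [div_le_iff₀ hε] at h1
    linarith only [h1]
  have hterm : ∀ a : ZMod p, (if a = 0 then (0 : ℝ) else ∏ i, ‖muv p T th (a * c i)‖) ≤
      1 / (p : ℝ) ^ 2 := by
    intro a
    split_ifs with h
    · positivity
    · calc ∏ i, ‖muv p T th (a * c i)‖ ≤ ∏ _i : Fin k, (p : ℝ) ^ (-ε) := by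
            apply Finset.prod_le_prod
            · intro i _; exact norm_nonneg _
            · intro i _
              exact hp₀ p T th hp1 hpp hT h2 hord (a * c i) (mul_ne_zero h (hc i))
        _ = ((p : ℝ) ^ (-ε)) ^ k := by
            rw [Finset.prod_const, Finset.card_univ, Fintype.card_fin]
        _ = (p : ℝ) ^ (-(ε * k)) := by
            rw [← Real.rpow_natCast, ← Real.rpow_mul hpos.le]
            congr 1
            ring
        _ ≤ (p : ℝ) ^ (-(2 : ℝ)) := Real.rpow_le_rpow_of_exponent_le hone (by linarith only [hk2])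
        _ = 1 / (p : ℝ) ^ 2 := by
            rw [Real.rpow_neg hpos.le, one_div]
            norm_num
  have h1 := hPF3 p T k th c hT
  refine h1.trans ?_
  have hsum : (∑ a : ZMod p, if a = 0 then (0 : ℝ) else ∏ i, ‖muv p T th (a * c i)‖) ≤
      p * (1 / (p : ℝ) ^ 2) := by
    calc (∑ a : ZMod p, if a = 0 then (0 : ℝ) else ∏ i, ‖muv p T th (a * c i)‖)
        ≤ ∑ _a : ZMod p, 1 / (p : ℝ) ^ 2 := Finset.sum_le_sum fun a _ => hterm a
      _ = p * (1 / (p : ℝ) ^ 2) := by
          rw [Finset.sum_const, Finset.card_univ, ZMod.card, nsmul_eq_mul]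
  rw [div_le_iff₀ hpos]
  linarith only [hsum]

end Pool.Agent.Helper7.SPR
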